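import Pool.Agent.U485.SM.All

/-!
# Both shapes of prime triples in sieved random models of the primes

`T` is nondecreasing, tends to infinity, `T(n) = n^{o(1)}`; every `n` without prime factors `≤ T(n)` is chosen
independently with probability `min(1, ∏_{p ≤ T(n)} (1 - 1/p)⁻¹ / log n)`. Almost surely both counts of the problem,
up to `x` and in all windows `(x, x + h]`, `x^η ≤ h ≤ x`, are asymptotic to `D x/(log x)³`, `D h/(log x)³`, and the
same holds, with its own singular series, for every finite pattern, also if no other element lies between.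

Project HT: packages of helper891, helper660, helper139, helper803, helper445, helper373, helper741, helper668,
helper333, helper200, helper44, helper165, helper934.
-/

set_option autoImplicit false

namespace Pool.Agent.Results.MP_c0d11e_nt.BothShapesInRandomModels

open MeasureTheory Filter Topology Pool.Agent.U485.SM

/-- the number of the `p` in `(x, y]` with `p, p + a, p + b` in `Q` -/
noncomputable def P (Q : Set ℕ) (a b x y : ℕ) : ℕ := {p : ℕ | x < p ∧ p ≤ y ∧ p ∈ Q ∧ p + a ∈ Q ∧ p + b ∈ Q}.ncard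

theorem P_eq (Q : Set ℕ) (a b x y : ℕ) : num Q {0, a, b} x y = P Q a b x y := by
  unfold num P
  congr 1
  ext p
  simp only [Set.mem_ofPred_eq, Finset.mem_insert, Finset.mem_singleton, forall_eq_or_imp, forall_eq, add_zero]

/-- the law on `(0, x]` -/
theorem full {Q : Set ℕ} (hQ : LawH Q) (H : Finset ℕ) (c : ℝ) (hc : Tendsto (PP H) atTop (𝓝 c)) :
    Tendsto (fun x : ℕ => (num Q H 0 x : ℝ) * (Real.log x) ^ H.card / x) atTop (𝓝 c) :=
  ful Q H c fun d hd => hQ H c hc d (1 / 2) hd (by norm_num)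

/-- **Both shapes of triples, up to `x` and in all short windows, in sieved random models.** -/
theorem result : ∃ D : ℝ, 0 < D ∧
    Tendsto (fun y : ℕ => 9 / 2 * ∏ p ∈ (Finset.Icc 5 y).filter Nat.Prime, ((p : ℝ) ^ 2 * (p - 3) / (p - 1) ^ 3)) atTop
      (𝓝 D) ∧
    ∀ (Ω : Type) [MeasurableSpace Ω] (μ : Measure Ω) [IsProbabilityMeasure μ] (T : ℕ → ℕ) (E : ℕ → Set Ω),
      Monotone T → Tendsto T atTop atTop → (∀ ε : ℝ, 0 < ε → ∀ᶠ n : ℕ in atTop, (T n : ℝ) ≤ (n : ℝ) ^ ε) →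
      Model μ T E → ∀ᵐ ω ∂μ,
        Tendsto (fun x : ℕ => (P {m | ω ∈ E m} 2 6 0 x : ℝ) * (Real.log x) ^ 3 / x) atTop (𝓝 D) ∧
        Tendsto (fun x : ℕ => (P {m | ω ∈ E m} 4 6 0 x : ℝ) * (Real.log x) ^ 3 / x) atTop (𝓝 D) ∧
        (∀ δ η : ℝ, 0 < δ → 0 < η → ∀ᶠ x : ℕ in atTop, ∀ h : ℕ, (x : ℝ) ^ η ≤ h → h ≤ x →
          |(P {m | ω ∈ E m} 2 6 x (x + h) : ℝ) * (Real.log x) ^ 3 / h - D| ≤ δ ∧
          |(P {m | ω ∈ E m} 4 6 x (x + h) : ℝ) * (Real.log x) ^ 3 / h - D| ≤ δ) ∧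
        ∀ H : Finset ℕ, ∃ c : ℝ, Tendsto (PP H) atTop (𝓝 c) ∧
          ((∀ p : ℕ, p.Prime → res H p < p) → 0 < c) ∧
          Tendsto (fun x : ℕ => (num {m | ω ∈ E m} H 0 x : ℝ) * (Real.log x) ^ H.card / x) atTop (𝓝 c) ∧
          ∀ δ η : ℝ, 0 < δ → 0 < η → ∀ᶠ x : ℕ in atTop, ∀ h : ℕ, (x : ℝ) ^ η ≤ h → h ≤ x →
            |(numx {m | ω ∈ E m} H x (x + h) : ℝ) * (Real.log x) ^ H.card / h - c| ≤ δ := by
  obtain ⟨K, hK0, hK, h26, h46⟩ := co3
  refine ⟨9 / 2 * K, by positivity, hK.const_mul _, ?_⟩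
  intro Ω _ μ _ T E hT hTt hTs hE
  filter_upwards [as_H hT hTt hTs hE] with ω hω
  have c26 : ({0, 2, 6} : Finset ℕ).card = 3 := by decide
  have c46 : ({0, 4, 6} : Finset ℕ).card = 3 := by decide
  refine ⟨?_, ?_, ?_, ?_⟩
  · have h1 := full hω {0, 2, 6} _ h26
    rw [c26] at h1
    exact h1.congr fun n => by rw [P_eq]
  · have h1 := full hω {0, 4, 6} _ h46
    rw [c46] at h1
    exact h1.congr fun n => by rw [P_eq]
  · intro δ η hδ hη
    filter_upwards [hω {0, 2, 6} _ h26 δ η hδ hη, hω {0, 4, 6} _ h46 δ η hδ hη,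
      eventually_ge_atTop 1] with x g1 g2 hx1 h h1 h2
    have hx0 : (0 : ℝ) < x := by exact_mod_cast hx1
    have hh : (0 : ℝ) < h := lt_of_lt_of_le (Real.rpow_pos_of_pos hx0 η) h1
    have g3 := g1 h h1 h2
    have g4 := g2 h h1 h2
    rw [c26, P_eq] at g3
    rw [c46, P_eq] at g4
    exact ⟨quot hh g3, quot hh g4⟩
  · intro H
    obtain ⟨c, hc0, hc⟩ := ex_lim sin H
    refine ⟨c, hc, ?_, full hω H c hc, ?_⟩
    · intro h
      obtain ⟨c', hc', h2⟩ := sin.1 H h
      rw [tendsto_nhds_unique hc h2]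
      exact hc'
    · intro δ η hδ hη
      filter_upwards [exact sin hω H c hc δ η hδ hη, eventually_ge_atTop 1] with x hx hx1 h h1 h2
      have hx0 : (0 : ℝ) < x := by exact_mod_cast hx1
      have hh : (0 : ℝ) < h := lt_of_lt_of_le (Real.rpow_pos_of_pos hx0 η) h1
      exact quot hh (hx h h1 h2)

end Pool.Agent.Results.MP_c0d11e_nt.BothShapesInRandomModels
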