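import Pool.Agent.U455.TUPE

/-!
# Isolated prime triples at every scale: every multiple of `6 P` is `d₁ + d₂ - d₃` with frequent triples `0, dᵢ, eᵢ`

For every `k` there is `B` and for every `R` there is `C` such that for all even `P`, all `q ∣ P`, all `a` prime to `q`
and EVERY multiple `t ≥ 1` of `6 P`: at ALL large `x`, `t = d₁ + d₂ - d₃` with integers `R t < dᵢ ≤ C t` each of which
has `k + 1` companions: distinct integers `e ≠ 0, dᵢ`, `|e| ≤ C t`, with at least `x / (log x) ^ B` primes `p ≤ x`,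
`p ≡ a (mod q)`, for which `p + dᵢ` and the `k + 1` numbers `p + e` are primes too, and no other prime is at distance
less than `P` from one of these `k + 3` primes. The constants `B` and `C` do not depend on `P, q, a, t`.

For `k = 0` this is about prime triples `p, p + d, p + e`.

Proof: the coloured Maynard-Tao theorem with `4 (k + 2)` classes at every scale, with the lower bound `x / (log x) ^ B`
(`Pool.Agent.R493.ST.tracec`, starting files); `k + 3` of the classes contain primes simultaneously; composites between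
them are forced by a covering of the remaining integers (`Pool.Agent.U455.TUPE.c4`); the classes are arranged in four
groups and two of the primes belong to different groups. Then the ternary theorem for sets meeting the differences of
four classes (`Pool.Agent.U455.TJ.all`), made uniform over all such sets by limits along ultrafilters
(`Pool.Agent.U455.UF.diff`); it is applied to the multiples of `t / 6 P`, so that the constants do not depend on `t`.
-/

set_option autoImplicit false

namespace Pool.Agent.Results.MP_c0d11e_nt.IsolatedTriplesEveryScale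

open Filter

/-- `z` is a prime and there is no other prime at distance less than `P` from `z` -/
def IsolatedPrime (P : ℕ) (z : ℤ) : Prop :=
  z.toNat.Prime ∧ ∀ r : ℕ, r.Prime → |(r : ℤ) - z| < P → (r : ℤ) = z

/-- `d` has companions: for some `k + 1` distinct `e i ≠ 0, d` with `|e i| ≤ L` there are at least `Z` integers `p ≤ x`,
`p ≡ a (mod q)`, for which `p`, `p + d` and all `p + e i` are `P`-isolated primes -/
def Companions (k P q a L : ℕ) (x Z : ℝ) (d : ℕ) : Prop := ∃ e : Fin (k + 1) → ℤ, Function.Injective e ∧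
  (∀ i, e i ≠ 0 ∧ e i ≠ d ∧ |e i| ≤ L) ∧
  Z ≤ ({p : ℕ | (p : ℝ) ≤ x ∧ p ≡ a [MOD q] ∧ IsolatedPrime P p ∧ IsolatedPrime P (p + d) ∧
    ∀ i, IsolatedPrime P (p + e i)}.ncard : ℝ)

theorem result (k : ℕ) : ∃ B : ℕ, ∀ R : ℕ, ∃ C : ℕ, ∀ P q a : ℕ, 0 < P → 2 ∣ P → 1 ≤ q → q ∣ P → a.Coprime q →
    ∀ t : ℕ, 6 * P ∣ t → 1 ≤ t → ∀ᶠ x : ℝ in atTop, ∃ d₁ d₂ d₃ : ℕ, t + d₃ = d₁ + d₂ ∧
      ∀ d ∈ ({d₁, d₂, d₃} : Finset ℕ), R * t < d ∧ d ≤ C * t ∧
        Companions k P q a (C * t) x (x / Real.log x ^ B) d := by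
  obtain ⟨B, hB⟩ := Pool.Agent.U455.TUPE.linear (k + 1)
  refine ⟨B, fun R => ?_⟩
  obtain ⟨C, hC⟩ := hB R
  refine ⟨C, fun P q a hP h2 hq hqP haq t ht ht1 => ?_⟩
  obtain ⟨m, rfl⟩ := ht
  have hm1 : 1 ≤ m := by
    rcases Nat.eq_zero_or_pos m with rfl | h
    · simp at ht1
    · exact h
  have hCm : C * (6 * P * m) = P * (C * (6 * m)) := by ring
  have hRm : R * (6 * P * m) = P * (R * (6 * m)) := by ring
  filter_upwards [hC P q a hP h2 hq hqP haq (6 * m) (Dvd.intro _ rfl) (by omega)] with x hx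
  obtain ⟨g₁, g₂, g₃, a1, a2, a3, b1, b2, b3, hs⟩ := hx
  have key : ∀ g : ℕ, g ∈ Pool.Agent.U455.TUPE.GE (k + 1) B q a P (C * (6 * m)) x →
      Companions k P q a (C * (6 * P * m)) x (x / Real.log x ^ B) (P * g) := by
    rintro g ⟨u, hu1, hu2, hu3⟩
    have hPz : (P : ℤ) ≠ 0 := by exact_mod_cast hP.ne'
    refine ⟨fun i => P * u i, fun i j hij => hu1 (mul_left_cancel₀ hPz hij), fun i => ?_, hu3.trans ?_⟩
    · obtain ⟨h1, h2, h3⟩ := hu2 i
      refine ⟨mul_ne_zero hPz h1, ?_, ?_⟩
      · show (P : ℤ) * u i ≠ ((P * g : ℕ) : ℤ)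
        push_cast
        exact fun h => h2 (mul_left_cancel₀ hPz h)
      · show |(P : ℤ) * u i| ≤ ((C * (6 * P * m) : ℕ) : ℤ)
        rw [hCm, abs_mul, Nat.abs_cast]
        push_cast at h3 ⊢
        exact mul_le_mul_of_nonneg_left h3 (Nat.cast_nonneg _)
    · rw [Nat.cast_le]
      refine Set.ncard_le_ncard ?_ ?_
      · rintro p ⟨h0, h1, h2, h3, h4, h5⟩
        refine ⟨h0, h1, ⟨?_, ?_⟩, ⟨?_, ?_⟩, fun i => ⟨?_, ?_⟩⟩
        · rw [Int.toNat_natCast]
          exact h2
        · intro r hr hrp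
          have := h5 r hr 0 (Or.inl rfl)
          rw [mul_zero, add_zero] at this
          exact this hrp
        · have e : ((p : ℤ) + ((P * g : ℕ) : ℤ)).toNat = p + P * g := by
            rw [← Nat.cast_add, Int.toNat_natCast]
          rw [e]
          exact h3
        · intro r hr hrp
          have := h5 r hr g (Or.inr (Or.inl rfl))
          push_cast at hrp ⊢
          exact this hrp
        · exact h4 i
        · intro r hr hrp
          exact h5 r hr (u i) (Or.inr (Or.inr ⟨i, rfl⟩)) hrp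
      · refine (Set.finite_le_nat ⌊x⌋₊).subset ?_
        rintro p ⟨h1, -⟩
        exact Nat.le_floor h1
  refine ⟨P * g₁, P * g₂, P * g₃, ?_, fun d hd => ?_⟩
  · rw [← Nat.mul_add, ← hs]
    ring
  · simp only [Finset.mem_insert, Finset.mem_singleton] at hd
    have hlt : ∀ g : ℕ, R * (6 * m) < g ∧ g ≤ C * (6 * m) →
        R * (6 * P * m) < P * g ∧ P * g ≤ C * (6 * P * m) := by
      rintro g ⟨h1, h2⟩
      rw [hRm, hCm]
      exact ⟨Nat.mul_lt_mul_of_pos_left h1 hP, Nat.mul_le_mul_left _ h2⟩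
    rcases hd with rfl | rfl | rfl
    · exact ⟨(hlt _ b1).1, (hlt _ b1).2, key _ a1⟩
    · exact ⟨(hlt _ b2).1, (hlt _ b2).2, key _ a2⟩
    · exact ⟨(hlt _ b3).1, (hlt _ b3).2, key _ a3⟩

end Pool.Agent.Results.MP_c0d11e_nt.IsolatedTriplesEveryScale
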