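import Mathlib
import Pool.Agent.U98.TY.A8

set_option autoImplicit false

/-!
# The shapes, residues and gaps of consecutive almost prime triples

Call `n` rough at the level `w` if it has no prime factors `p ≤ w`. A triple of the first shape at `n` consists of rough
numbers `n`, `n + 2`, `n + 6`, one of the second shape of rough numbers `n`, `n + 4`, `n + 6`. Triples of primes larger
than `w` are examples, and if `n + 6 ≤ w ^ s`, the members of a triple have at most `s` prime factors. We consider all
triples of both shapes, ordered by `n`. Triples may overlap: `n`, `n + 2`, `n + 6`, `n + 8`, `n + 12` contain two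
triples of the first and one of the second shape.

For all multiples `q` of `6` and all `l` and `ε` there is `K` such that for all large `w`, in ALL intervals of length
`≥ w ^ K`, the residues modulo `q` of `l + 1` consecutive triples and the `l` distances between them are
asymptotically independent; the residues are uniformly distributed in the set of the possible residues, and the
distances have the exponential law. As the shape is determined by the residue modulo `6`, the shapes of consecutive
triples are (the case `q = 6`) asymptotically independent tosses of a fair coin, independent of the distances.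

Proof: Poisson laws for *typed* systems, i.e. sieve problems with different conditions in different residue classes
(`Pool.Agent.U98.TY`), which also allow translates in the system. The starting library has such laws for one system
without translates (`Pool.Agent.TH464.PO`, `Pool.Agent.R463.PP`).
-/

namespace Pool.Agent.Results.MP_c0d11e_nt.ShapesOfConsecutiveTriples

open Finset

/-- `n` has no prime factors `p ≤ w` -/
def Rough (w n : ℕ) : Prop := ∀ p : ℕ, p.Prime → p ≤ w → ¬ p ∣ n

/-- a triple of the first shape at `n` -/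
def First (w n : ℕ) : Prop := Rough w n ∧ Rough w (n + 2) ∧ Rough w (n + 6)

/-- a triple of the second shape at `n` -/
def Second (w n : ℕ) : Prop := Rough w n ∧ Rough w (n + 4) ∧ Rough w (n + 6)

/-- a triple of one of the two shapes at `n` -/
def Triple (w n : ℕ) : Prop := First w n ∨ Second w n

/-- the next triple -/
noncomputable def next (w n : ℕ) : ℕ := sInf {m | n < m ∧ Triple w m}

/-- the possible residues modulo `q` of triples, for `6 ∣ q` -/
def residues (q : ℕ) : Finset ℕ :=
  (range q).filter (fun b => (b % 6 = 5 ∧ Nat.Coprime (b * (b + 2) * (b + 6)) q) ∨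
    (b % 6 = 1 ∧ Nat.Coprime (b * (b + 4) * (b + 6)) q))

/-- the density of the triples of both shapes, for `6 ∣ q` -/
noncomputable def density (w q : ℕ) : ℝ :=
  (residues q).card / (q : ℝ) * ∏ p ∈ (Icc 1 w).filter (fun p => p.Prime ∧ ¬ p ∣ q), (1 - 3 / (p : ℝ))

/-- The number of the triples at `n ∈ (Z, Z + Y]` such that `n` and the places of the next `l` triples are congruent to
`b 0, ..., b l` modulo `q` and the `l` distances are in `(s j, T j]`. -/
noncomputable def count (w q l : ℕ) (b s T : ℕ → ℕ) (Z Y : ℕ) : ℕ :=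
  Set.ncard {n : ℕ | Z < n ∧ n ≤ Z + Y ∧ Triple w n ∧ (∀ j ≤ l, (next w)^[j] n % q = b j) ∧
    ∀ j < l, s j < (next w)^[j + 1] n - (next w)^[j] n ∧ (next w)^[j + 1] n - (next w)^[j] n ≤ T j}

open Pool.Agent.U98.TY

/-- the shape as a function of the residue -/
def D (i : ℕ) : Finset ℕ := if i % 6 = 5 then {0, 2, 6} else {0, 4, 6}

lemma D_cases (i : ℕ) : D i = {0, 2, 6} ∨ D i = {0, 4, 6} := by
  unfold D
  split_ifs
  · exact Or.inl rfl
  · exact Or.inr rfl

lemma dvd_small (p d q : ℕ) (hp : p.Prime) (h6 : 6 ∣ q) (hd : d = 2 ∨ d = 4 ∨ d = 6) (h : p ∣ d) : p ∣ q := by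
  have h2 : (2 : ℕ) ∣ q := (by norm_num : (2 : ℕ) ∣ 6).trans h6
  have h3 : (3 : ℕ) ∣ q := (by norm_num : (3 : ℕ) ∣ 6).trans h6
  rcases hd with rfl | rfl | rfl
  · exact h.trans h2
  · have : p ∣ 2 ^ 2 := by norm_num; exact h
    exact (hp.dvd_of_dvd_pow this).trans h2
  · exact h.trans h6

lemma fam (q : ℕ) (h6 : 6 ∣ q) : Fam 3 6 q D where
  card := by
    intro i
    rcases D_cases i with h | h <;> rw [h] <;> rfl
  le := by
    intro i h hh
    rcases D_cases i with h1 | h1 <;> rw [h1] at hh <;> simp at hh <;> omega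
  zero := by
    intro i
    rcases D_cases i with h | h <;> rw [h] <;> simp
  inj := by
    intro i h hh h' hh' hlt p hp hd
    apply dvd_small p (h' - h) q hp h6 _ hd
    rcases D_cases i with h1 | h1 <;> rw [h1] at hh hh' <;> simp at hh hh' <;> omega
  adm := by
    intro p hp hpq
    by_contra hcon
    rw [not_lt] at hcon
    have h2 := hp.two_le
    have h3 : p = 2 ∨ p = 3 := by omega
    rcases h3 with rfl | rfl
    · exact hpq ((by norm_num : (2 : ℕ) ∣ 6).trans h6)
    · exact hpq ((by norm_num : (3 : ℕ) ∣ 6).trans h6)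

lemma rough_two {w n : ℕ} (hw : 3 ≤ w) (h : Rough w n) : ¬ 2 ∣ n := h 2 Nat.prime_two (by omega)

lemma rough_three {w n : ℕ} (hw : 3 ≤ w) (h : Rough w n) : ¬ 3 ∣ n := h 3 Nat.prime_three hw

lemma first_mod {w n : ℕ} (hw : 3 ≤ w) (h : First w n) : n % 6 = 5 := by
  have h1 := rough_two hw h.1
  have h2 := rough_three hw h.1
  have h3 := rough_three hw h.2.1
  have h4 : n % 2 = 1 := by omega
  have h5 : n % 3 = 2 := by omega
  omega

lemma second_mod {w n : ℕ} (hw : 3 ≤ w) (h : Second w n) : n % 6 = 1 := by
  have h1 := rough_two hw h.1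
  have h2 := rough_three hw h.1
  have h3 := rough_three hw h.2.1
  have h4 : n % 2 = 1 := by omega
  have h5 : n % 3 = 1 := by omega
  omega

lemma triple_iff {w q : ℕ} (hw : 3 ≤ w) (h6 : 6 ∣ q) (n : ℕ) :
    Triple w n ↔ ∀ h ∈ D (n % q), ∀ p : ℕ, p.Prime → p ≤ w → ¬ p ∣ n + h := by
  have hmod : n % q % 6 = n % 6 := Nat.mod_mod_of_dvd n h6
  constructor
  · intro h
    rcases h with h | h
    · have h1 := first_mod hw h
      have hD : D (n % q) = {0, 2, 6} := by
        unfold D
        rw [if_pos (by omega)]
      rw [hD]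
      intro x hx
      simp only [mem_insert, mem_singleton] at hx
      rcases hx with rfl | rfl | rfl
      · exact h.1
      · exact h.2.1
      · exact h.2.2
    · have h1 := second_mod hw h
      have hD : D (n % q) = {0, 4, 6} := by
        unfold D
        rw [if_neg (by omega)]
      rw [hD]
      intro x hx
      simp only [mem_insert, mem_singleton] at hx
      rcases hx with rfl | rfl | rfl
      · exact h.1
      · exact h.2.1
      · exact h.2.2
  · intro h
    rcases D_cases (n % q) with h1 | h1
    · rw [h1] at h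
      exact Or.inl ⟨h 0 (by simp), h 2 (by simp), h 6 (by simp)⟩
    · rw [h1] at h
      exact Or.inr ⟨h 0 (by simp), h 4 (by simp), h 6 (by simp)⟩

lemma cop_iff (q a b c : ℕ) : Nat.Coprime (a * b * c) q ↔
    ∀ p : ℕ, p.Prime → p ∣ q → ¬ p ∣ a ∧ ¬ p ∣ b ∧ ¬ p ∣ c := by
  constructor
  · intro h p hp hpq
    have key : ¬ p ∣ a * b * c := by
      intro hd
      have h1 := Nat.dvd_gcd hd hpq
      rw [Nat.Coprime] at h
      rw [h] at h1
      exact hp.one_lt.ne' (Nat.dvd_one.1 h1)
    refine ⟨fun h1 => key ((h1.mul_right b).mul_right c), fun h1 => key ((h1.mul_left a).mul_right c),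
      fun h1 => key (h1.mul_left (a * b))⟩
  · intro h
    rw [Nat.coprime_iff_gcd_eq_one]
    by_contra hcon
    obtain ⟨p, hp, hpd⟩ := Nat.exists_prime_and_dvd hcon
    obtain ⟨h1, h2, h3⟩ := h p hp (hpd.trans (Nat.gcd_dvd_right _ _))
    have h4 := hpd.trans (Nat.gcd_dvd_left _ _)
    rcases hp.dvd_mul.1 h4 with h5 | h5
    · rcases hp.dvd_mul.1 h5 with h6 | h6
      · exact h1 h6
      · exact h2 h6
    · exact h3 h5

lemma residues_eq (q : ℕ) (h6 : 6 ∣ q) : residues q = rs q D := by
  classical
  have h2 : (2 : ℕ) ∣ q := (by norm_num : (2 : ℕ) ∣ 6).trans h6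
  have h3 : (3 : ℕ) ∣ q := (by norm_num : (3 : ℕ) ∣ 6).trans h6
  ext b
  unfold residues rs
  rw [mem_filter, mem_filter, cop_iff q, cop_iff q]
  apply and_congr_right
  intro _
  constructor
  · rintro (⟨h5, h⟩ | ⟨h5, h⟩) p hp hpq x hx
    · have hD : D b = {0, 2, 6} := by unfold D; rw [if_pos h5]
      rw [hD] at hx
      obtain ⟨a1, a2, a3⟩ := h p hp hpq
      simp only [mem_insert, mem_singleton] at hx
      rcases hx with rfl | rfl | rfl
      · exact a1
      · exact a2
      · exact a3
    · have hD : D b = {0, 4, 6} := by unfold D; rw [if_neg (by omega)]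
      rw [hD] at hx
      obtain ⟨a1, a2, a3⟩ := h p hp hpq
      simp only [mem_insert, mem_singleton] at hx
      rcases hx with rfl | rfl | rfl
      · exact a1
      · exact a2
      · exact a3
  · intro h
    by_cases h5 : b % 6 = 5
    · left
      have hD : D b = {0, 2, 6} := by unfold D; rw [if_pos h5]
      rw [hD] at h
      exact ⟨h5, fun p hp hpq => ⟨h p hp hpq 0 (by simp), h p hp hpq 2 (by simp), h p hp hpq 6 (by simp)⟩⟩
    · right
      have hD : D b = {0, 4, 6} := by unfold D; rw [if_neg h5]
      rw [hD] at h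
      refine ⟨?_, fun p hp hpq => ⟨h p hp hpq 0 (by simp), h p hp hpq 4 (by simp), h p hp hpq 6 (by simp)⟩⟩
      have b1 := h 2 Nat.prime_two h2 0 (by simp)
      have b2 := h 3 Nat.prime_three h3 0 (by simp)
      omega

/-- **The shapes, residues and gaps of consecutive almost prime triples.** -/
theorem result :
    -- triples of primes
    (∀ w n : ℕ, w < n → n.Prime → (n + 2).Prime → (n + 6).Prime → First w n) ∧
    (∀ w n : ℕ, w < n → n.Prime → (n + 4).Prime → (n + 6).Prime → Second w n) ∧
    -- the members of the triples are almost primes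
    (∀ w s n : ℕ, 0 < n → n + 6 ≤ w ^ s →
      (First w n → n.primeFactorsList.length ≤ s ∧ (n + 2).primeFactorsList.length ≤ s ∧
        (n + 6).primeFactorsList.length ≤ s) ∧
      (Second w n → n.primeFactorsList.length ≤ s ∧ (n + 4).primeFactorsList.length ≤ s ∧
        (n + 6).primeFactorsList.length ≤ s)) ∧
    -- the shape is determined by the residue modulo `6`
    (∀ w n : ℕ, 3 ≤ w → ((First w n ↔ Triple w n ∧ n % 6 = 5) ∧ (Second w n ↔ Triple w n ∧ n % 6 = 1))) ∧
    residues 6 = {1, 5} ∧
    -- the joint law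
    (∀ q l : ℕ, 1 ≤ q → 6 ∣ q → ∀ ε : ℝ, 0 < ε → ∃ K w₀ : ℕ, ∀ w : ℕ, w₀ ≤ w →
      ∀ Z Y : ℕ, w ^ K ≤ Y → ∀ b s T : ℕ → ℕ, (∀ j ≤ l, b j ∈ residues q) → (∀ j < l, s j ≤ T j) →
        |(count w q l b s T Z Y : ℝ) - density w q * Y / (residues q).card ^ (l + 1) *
            ∏ j ∈ range l, (Real.exp (-(density w q * s j)) - Real.exp (-(density w q * T j)))| ≤
          ε * (density w q * Y / (residues q).card ^ (l + 1))) := by
  refine ⟨?_, ?_, ?_, ?_, by decide, ?_⟩
  · intro w n hwn h1 h2 h3
    exact ⟨prime_rough w n hwn h1, prime_rough w _ (by omega) h2, prime_rough w _ (by omega) h3⟩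
  · intro w n hwn h1 h2 h3
    exact ⟨prime_rough w n hwn h1, prime_rough w _ (by omega) h2, prime_rough w _ (by omega) h3⟩
  · intro w s n hn hns
    refine ⟨fun h => ⟨few w s n hn (by omega) h.1, few w s _ (by omega) (by omega) h.2.1,
      few w s _ (by omega) hns h.2.2⟩, fun h => ⟨few w s n hn (by omega) h.1,
      few w s _ (by omega) (by omega) h.2.1, few w s _ (by omega) hns h.2.2⟩⟩
  · intro w n hw
    refine ⟨⟨fun h => ⟨Or.inl h, first_mod hw h⟩, ?_⟩, ⟨fun h => ⟨Or.inr h, second_mod hw h⟩, ?_⟩⟩
    · rintro ⟨h | h, h1⟩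
      · exact h
      · have := second_mod hw h
        omega
    · rintro ⟨h | h, h1⟩
      · have := first_mod hw h
        omega
      · exact h
  · intro q l hq h6 ε hε
    obtain ⟨K, y1, hK⟩ := law_fam l (by norm_num) hq (fam q h6) ε hε
    refine ⟨K, max y1 3, ?_⟩
    intro w hw Z Y hY b s T hb hsT
    have hw3 : 3 ≤ w := (le_max_right _ _).trans hw
    rw [residues_eq q h6] at hb
    have hmain := hK w ((le_max_left _ _).trans hw) Z Y hY b s T hb hsT (residues q).card (density w q)
      (by rw [residues_eq q h6]) (by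
        unfold density
        norm_num)
    have hG : Triple w = fun m => ∀ h ∈ D (m % q), ∀ p : ℕ, p.Prime → p ≤ w → ¬ p ∣ m + h := by
      funext m
      exact propext (triple_iff hw3 h6 m)
    have hn : next w = nxt (Triple w) := rfl
    have hcount : count w q l b s T Z Y = cG (Triple w) q l b s T Z Y := by
      unfold count cG
      rw [hn]
    rw [hcount, hG]
    exact hmain

end Pool.Agent.Results.MP_c0d11e_nt.ShapesOfConsecutiveTriples
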